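import Pool.Agent.Helper89.Hia.Defs

/-!
MP_5ace61_lc (`s ≤ hia`), BLOCK E (fusion), helper37.

The block is proved from the conclusion of BLOCK D (`one_step`) as a hypothesis `OneStep A`.
-/

open Set

namespace Pool.Agent.Hia

/-- the conclusion of `one_step` for all good chains of `A` -/
def OneStep (A : BooleanSubalgebra (Set ℕ)) : Prop :=
  ∀ (D : Set ℕ), D ∈ A → ∀ (C : Set (Set ℕ)), GoodChain A D C →
    ∃ (C' : Set (Set ℕ)) (B : Set (Set ℕ × Set ℕ)), C' ⊆ A ∧ (∀ c ∈ C', c ⊆ D) ∧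
      IsChain (· ⊆ ·) C' ∧ ∅ ∈ C' ∧ D ∈ C' ∧
      (∀ p ∈ B, p.1 ∈ C' ∧ p.2 ∈ C' ∧ p.1 ⊂ p.2 ∧ (∀ h ∈ C', h ⊆ p.1 ∨ p.2 ⊆ h) ∧
        Triv C (p.2 \ p.1)) ∧
      (∀ q ∈ A, q ⊆ D → ∃ F ⊆ B, F.Finite ∧
        q ∈ BooleanSubalgebra.closure (C' ∪ {x | ∃ p ∈ F, x = q ∩ (p.2 \ p.1)}))

/-- the states of the fusion -/
structure FState (A : BooleanSubalgebra (Set ℕ)) (H : Set (Set ℕ)) (B : Set (Set ℕ × Set ℕ)) :
    Prop where
  sub : H ⊆ A
  chain : IsChain (· ⊆ ·) H
  bot : ∅ ∈ H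
  top : univ ∈ H
  fst : ∀ p ∈ B, p.1 ∈ H
  snd : ∀ p ∈ B, p.2 ∈ H
  lt : ∀ p ∈ B, p.1 ⊂ p.2
  cons : ∀ p ∈ B, ∀ h ∈ H, h ⊆ p.1 ∨ p.2 ⊆ h
  gen : ∀ q ∈ A, ∃ F ⊆ B, F.Finite ∧
    q ∈ BooleanSubalgebra.closure (H ∪ {x | ∃ p ∈ F, x = q ∩ (p.2 \ p.1)})

theorem fstate_start (A : BooleanSubalgebra (Set ℕ)) :
    FState A {∅, univ} {(∅, univ)} where
  sub := by
    rintro x (rfl | rfl)
    · exact BooleanSubalgebra.bot_mem
    · exact BooleanSubalgebra.top_mem
  chain := by
    rintro x (rfl | rfl) y (rfl | rfl) hxy <;> simp_all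
  bot := by simp
  top := by simp
  fst := by simp
  snd := by simp
  lt := by
    rintro p rfl
    exact ⟨empty_subset _, fun h => by simpa using h (mem_univ 0)⟩
  cons := by
    rintro p rfl h (rfl | rfl) <;> simp
  gen := by
    intro q _
    refine ⟨{(∅, univ)}, subset_rfl, finite_singleton _, BooleanSubalgebra.subset_closure ?_⟩
    right
    exact ⟨_, rfl, by simp⟩

/-- restriction of a good chain to an element -/
theorem GoodChain.restrict {A : BooleanSubalgebra (Set ℕ)} {C : Set (Set ℕ)}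
    (hC : GoodChain A univ C) {D : Set ℕ} (hD : D ∈ A) :
    GoodChain A D ((fun c => c ∩ D) '' C) where
  sub := by
    rintro x ⟨c, hc, rfl⟩
    exact BooleanSubalgebra.inf_mem (hC.sub hc) hD
  le := by
    rintro x ⟨c, hc, rfl⟩
    exact inter_subset_right
  chain := by
    rintro x ⟨c, hc, rfl⟩ y ⟨d, hd, rfl⟩ _
    rcases hC.chain.total hc hd with h | h
    · exact Or.inl (inter_subset_inter_left _ h)
    · exact Or.inr (inter_subset_inter_left _ h)
  bot := ⟨∅, hC.bot, by simp⟩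
  top := ⟨univ, hC.top, by simp⟩
  gen := by
    intro q hq hqD
    have hDG : D ∈ BooleanSubalgebra.closure ((fun c => c ∩ D) '' C ∪
        {u | u ∈ A ∧ u ⊆ D ∧ Triv ((fun c => c ∩ D) '' C) u}) :=
      BooleanSubalgebra.subset_closure (Or.inl ⟨univ, hC.top, by simp⟩)
    have key : ∀ x ∈ BooleanSubalgebra.closure (C ∪ {u | u ∈ A ∧ u ⊆ univ ∧ Triv C u}),
        x ∩ D ∈ BooleanSubalgebra.closure ((fun c => c ∩ D) '' C ∪
          {u | u ∈ A ∧ u ⊆ D ∧ Triv ((fun c => c ∩ D) '' C) u}) := by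
      intro x hx
      induction hx using BooleanSubalgebra.closure_bot_sup_induction with
      | mem x hx =>
        apply BooleanSubalgebra.subset_closure
        rcases hx with hx | ⟨hxA, -, hxT⟩
        · exact Or.inl ⟨x, hx, rfl⟩
        · refine Or.inr ⟨BooleanSubalgebra.inf_mem hxA hD, inter_subset_right, ?_⟩
          rintro _ ⟨c, hc, rfl⟩
          rcases hxT c hc with h | h
          · exact Or.inl (inter_subset_inter_left _ h)
          · exact Or.inr (h.mono inter_subset_left inter_subset_left)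
      | bot =>
        have : (⊥ : Set ℕ) ∩ D = ⊥ := by simp
        rw [this]
        exact BooleanSubalgebra.bot_mem
      | sup x hx y hy h1 h2 =>
        have : (x ⊔ y) ∩ D = (x ∩ D) ⊔ (y ∩ D) := by
          ext n; simp [or_and_right]
        rw [this]
        exact BooleanSubalgebra.sup_mem h1 h2
      | compl x hx h =>
        have : xᶜ ∩ D = D \ (x ∩ D) := by
          ext n; simp; tauto
        rw [this]
        exact BooleanSubalgebra.sdiff_mem hDG h
    have := key q (hC.gen q hq (subset_univ _))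
    rwa [inter_eq_left.2 hqD] at this

theorem fstate_step {A : BooleanSubalgebra (Set ℕ)} (hone : OneStep A) {C : Set (Set ℕ)}
    (hC : GoodChain A univ C) {H : Set (Set ℕ)} {B : Set (Set ℕ × Set ℕ)} (hs : FState A H B) :
    ∃ (H' : Set (Set ℕ)) (B' : Set (Set ℕ × Set ℕ)), FState A H' B' ∧ H ⊆ H' ∧
      ∀ p ∈ B', Triv C (p.2 \ p.1) := by
  have hDA : ∀ p ∈ B, p.2 \ p.1 ∈ A := fun p hp =>
    BooleanSubalgebra.sdiff_mem (hs.sub (hs.snd p hp)) (hs.sub (hs.fst p hp))
  have hex := fun p : B => hone (p.1.2 \ p.1.1) (hDA p.1 p.2) _ (hC.restrict (hDA p.1 p.2))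
  choose C' Bp hsub hle hch hbot htop hBp hgen using hex
  -- comparison of two different pairs
  have hcmp : ∀ p ∈ B, ∀ q ∈ B, p = q ∨ p.2 ⊆ q.1 ∨ q.2 ⊆ p.1 := by
    intro p hp q hq
    rcases hs.cons p hp q.1 (hs.fst q hq) with h1 | h1
    · rcases hs.cons q hq p.1 (hs.fst p hp) with h2 | h2
      · have e1 : p.1 = q.1 := subset_antisymm h2 h1
        rcases hs.cons p hp q.2 (hs.snd q hq) with h3 | h3
        · exact absurd (h3.trans e1.le) (hs.lt q hq).2
        · rcases hs.cons q hq p.2 (hs.snd p hp) with h4 | h4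
          · exact absurd (h4.trans e1.ge) (hs.lt p hp).2
          · exact Or.inl (Prod.ext e1 (subset_antisymm h3 h4))
      · exact Or.inr (Or.inr h2)
    · exact Or.inr (Or.inl h1)
  have hlo : ∀ (p : B) (h : Set ℕ), h ∈ C' p → p.1.1 ∪ h ⊆ p.1.2 := by
    intro p h hh
    exact union_subset (hs.lt p.1 p.2).1 ((hle p h hh).trans sdiff_subset)
  have hdis : ∀ (p : B) (h : Set ℕ), h ∈ C' p → Disjoint p.1.1 h := by
    intro p h hh
    exact (disjoint_sdiff_right : Disjoint p.1.1 (p.1.2 \ p.1.1)).mono_right (hle p h hh)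
  obtain ⟨H', hH'⟩ : ∃ H', H' = H ∪ {x | ∃ (p : B), ∃ h ∈ C' p, x = p.1.1 ∪ h} := ⟨_, rfl⟩
  obtain ⟨B', hB'⟩ : ∃ B' : Set (Set ℕ × Set ℕ),
    B' = {x | ∃ (p : B), ∃ k ∈ Bp p, x = (p.1.1 ∪ k.1, p.1.1 ∪ k.2)} := ⟨_, rfl⟩
  have hHH' : H ⊆ H' := by rw [hH']; exact subset_union_left
  have hmem : ∀ (p : B) (h : Set ℕ), h ∈ C' p → p.1.1 ∪ h ∈ H' := by
    intro p h hh
    rw [hH']
    exact Or.inr ⟨p, h, hh, rfl⟩
  refine ⟨H', B', ?_, hHH', ?_⟩
  · refine ⟨?_, ?_, hHH' hs.bot, hHH' hs.top, ?_, ?_, ?_, ?_, ?_⟩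
    · -- sub
      rw [hH']
      rintro x (hx | ⟨p, h, hh, rfl⟩)
      · exact hs.sub hx
      · exact BooleanSubalgebra.sup_mem (hs.sub (hs.fst p.1 p.2)) (hsub p hh)
    · -- chain
      have aux : ∀ x ∈ H, ∀ (p : B), ∀ h ∈ C' p, x ⊆ p.1.1 ∪ h ∨ p.1.1 ∪ h ⊆ x := by
        intro x hx p h hh
        rcases hs.cons p.1 p.2 x hx with h1 | h1
        · exact Or.inl (h1.trans subset_union_left)
        · exact Or.inr ((hlo p h hh).trans h1)
      rw [hH']
      rintro x (hx | ⟨p, h, hh, rfl⟩) y (hy | ⟨q, k, hk, rfl⟩) _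
      · exact hs.chain.total hx hy
      · exact aux x hx q k hk
      · exact (aux y hy p h hh).symm
      · rcases hcmp p.1 p.2 q.1 q.2 with e | e | e
        · have e' : p = q := Subtype.ext e
          subst e'
          rcases (hch p).total hh hk with h1 | h1
          · exact Or.inl (union_subset_union_right _ h1)
          · exact Or.inr (union_subset_union_right _ h1)
        · exact Or.inl ((hlo p h hh).trans (e.trans subset_union_left))
        · exact Or.inr ((hlo q k hk).trans (e.trans subset_union_left))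
    · -- fst
      rw [hB']
      rintro _ ⟨p, k, hk, rfl⟩
      exact hmem p k.1 (hBp p k hk).1
    · -- snd
      rw [hB']
      rintro _ ⟨p, k, hk, rfl⟩
      exact hmem p k.2 (hBp p k hk).2.1
    · -- lt
      rw [hB']
      rintro _ ⟨p, k, hk, rfl⟩
      obtain ⟨h1, h2, h3, -, -⟩ := hBp p k hk
      refine ⟨union_subset_union_right _ h3.1, fun hcon => h3.2 ?_⟩
      intro n hn
      rcases hcon (Or.inr hn) with h4 | h4
      · exact absurd hn (disjoint_left.1 (hdis p k.2 h2) h4)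
      · exact h4
    · -- cons
      rw [hB']
      rintro _ ⟨p, k, hk, rfl⟩ x hx
      obtain ⟨h1, h2, h3, h4, -⟩ := hBp p k hk
      rw [hH'] at hx
      rcases hx with hx | ⟨q, h, hh, rfl⟩
      · rcases hs.cons p.1 p.2 x hx with h5 | h5
        · exact Or.inl (h5.trans subset_union_left)
        · exact Or.inr ((hlo p k.2 h2).trans h5)
      · rcases hcmp p.1 p.2 q.1 q.2 with e | e | e
        · have e' : p = q := Subtype.ext e
          subst e'
          rcases h4 h hh with h5 | h5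
          · exact Or.inl (union_subset_union_right _ h5)
          · exact Or.inr (union_subset_union_right _ h5)
        · exact Or.inr ((hlo p k.2 h2).trans (e.trans subset_union_left))
        · exact Or.inl ((hlo q h hh).trans (e.trans subset_union_left))
    · -- gen
      intro q hq
      obtain ⟨F, hFB, hFfin, hF⟩ := hs.gen q hq
      have hex2 := fun p : B => hgen p (q ∩ (p.1.2 \ p.1.1))
        (BooleanSubalgebra.inf_mem hq (hDA p.1 p.2)) inter_subset_right
      choose Fp hFpB hFpfin hFp using hex2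
      -- the new finite set of pairs
      refine ⟨{x | ∃ (p : B), p.1 ∈ F ∧ ∃ k ∈ Fp p, x = (p.1.1 ∪ k.1, p.1.1 ∪ k.2)}, ?_, ?_, ?_⟩
      · rw [hB']
        rintro _ ⟨p, _, k, hk, rfl⟩
        exact ⟨p, k, hFpB p hk, rfl⟩
      · have h1 : {p : B | p.1 ∈ F}.Finite := hFfin.preimage Subtype.coe_injective.injOn
        have h2 : (⋃ p ∈ {p : B | p.1 ∈ F}, (fun k : Set ℕ × Set ℕ =>
            (p.1.1 ∪ k.1, p.1.1 ∪ k.2)) '' (Fp p)).Finite :=
          h1.biUnion fun p _ => (hFpfin p).image _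
        refine h2.subset ?_
        rintro _ ⟨p, hp, k, hk, rfl⟩
        simp only [mem_iUnion]
        exact ⟨p, hp, k, hk, rfl⟩
      · obtain ⟨G, hG⟩ : ∃ G, G = BooleanSubalgebra.closure (H' ∪ {x | ∃ p' ∈
          {x | ∃ (p : B), p.1 ∈ F ∧ ∃ k ∈ Fp p, x = (p.1.1 ∪ k.1, p.1.1 ∪ k.2)},
            x = q ∩ (p'.2 \ p'.1)}) := ⟨_, rfl⟩
        rw [← hG]
        have hH'G : H' ⊆ G := by
          rw [hG]; exact subset_union_left.trans BooleanSubalgebra.subset_closure
        have hC'G : ∀ (p : B), C' p ⊆ G := by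
          intro p h hh
          have h1 : h = (p.1.1 ∪ h) \ p.1.1 := by
            rw [union_sdiff_left]
            exact ((hdis p h hh).sdiff_eq_right).symm
          rw [h1]
          exact BooleanSubalgebra.sdiff_mem (hH'G (hmem p h hh))
            (hH'G (hHH' (hs.fst p.1 p.2)))
        have hpc : ∀ p : B, p.1 ∈ F → q ∩ (p.1.2 \ p.1.1) ∈ G := by
          intro p hpF
          refine (BooleanSubalgebra.closure_le (L := G)).2 ?_ (hFp p)
          rintro x (hx | ⟨k, hk, rfl⟩)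
          · exact hC'G p hx
          · have hk' := hBp p k (hFpB p hk)
            have e : q ∩ (p.1.2 \ p.1.1) ∩ (k.2 \ k.1) =
                q ∩ ((p.1.1 ∪ k.2) \ (p.1.1 ∪ k.1)) := by
              ext n
              have a1 : n ∈ k.2 → n ∈ p.1.2 ∧ n ∉ p.1.1 := fun hn => hle p k.2 hk'.2.1 hn
              simp only [mem_inter_iff, mem_sdiff, mem_union]
              tauto
            rw [e, hG]
            exact BooleanSubalgebra.subset_closure (Or.inr ⟨_, ⟨p, hpF, k, hk, rfl⟩, rfl⟩)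
        refine (BooleanSubalgebra.closure_le (L := G)).2 ?_ hF
        rintro x (hx | ⟨p, hp, rfl⟩)
        · exact hH'G (hHH' hx)
        · exact hpc ⟨p, hFB hp⟩ hp
  · rw [hB']
    rintro _ ⟨p, k, hk, rfl⟩ c hc
    obtain ⟨h1, h2, h3, -, h5⟩ := hBp p k hk
    have e : (p.1.1 ∪ k.2) \ (p.1.1 ∪ k.1) = k.2 \ k.1 := by
      ext n
      have a1 : n ∈ k.2 → n ∈ p.1.2 ∧ n ∉ p.1.1 := fun hn => hle p k.2 h2 hn
      simp only [mem_sdiff, mem_union]
      tauto
    show (p.1.1 ∪ k.2) \ (p.1.1 ∪ k.1) ⊆ c ∨ Disjoint ((p.1.1 ∪ k.2) \ (p.1.1 ∪ k.1)) c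
    rw [e]
    rcases h5 _ ⟨c, hc, rfl⟩ with h6 | h6
    · exact Or.inl (h6.trans inter_subset_left)
    · refine Or.inr ?_
      rw [disjoint_left] at h6 ⊢
      intro n hn hnc
      exact h6 hn ⟨hnc, hle p k.2 h2 hn.1⟩

theorem fusion_of_oneStep {A : BooleanSubalgebra (Set ℕ)} (hone : OneStep A)
    (C : ℕ → Set (Set ℕ)) (hC : ∀ n, GoodChain A univ (C n))
    (hgen : A ≤ BooleanSubalgebra.closure (⋃ n, C n)) :
    ∃ H : Set (Set ℕ), H ⊆ A ∧ IsChain (· ⊆ ·) H ∧ BooleanSubalgebra.closure H = A := by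
  choose! f g hfs hfsub htriv using
    fun (n : ℕ) (H : Set (Set ℕ)) (B : Set (Set ℕ × Set ℕ)) (hs : FState A H B) =>
      fstate_step hone (hC n) hs
  -- the sequence of states
  let S : ℕ → Set (Set ℕ) × Set (Set ℕ × Set ℕ) := fun n =>
    Nat.rec ({∅, univ}, {(∅, univ)}) (fun n s => (f n s.1 s.2, g n s.1 s.2)) n
  have hS0 : S 0 = ({∅, univ}, {(∅, univ)}) := rfl
  have hSs : ∀ n, S (n + 1) = (f n (S n).1 (S n).2, g n (S n).1 (S n).2) := fun n => rfl
  have hst : ∀ n, FState A (S n).1 (S n).2 := by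
    intro n
    induction n with
    | zero => rw [hS0]; exact fstate_start A
    | succ n ih => rw [hSs]; exact hfs n _ _ ih
  have hmono : Monotone fun n => (S n).1 := by
    refine monotone_nat_of_le_succ fun n => ?_
    show (S n).1 ⊆ (S (n + 1)).1
    rw [hSs]
    exact hfsub n _ _ (hst n)
  refine ⟨⋃ n, (S n).1, ?_, ?_, ?_⟩
  · exact iUnion_subset fun n => (hst n).sub
  · intro x hx y hy hxy
    obtain ⟨n, hn⟩ := mem_iUnion.1 hx
    obtain ⟨m, hm⟩ := mem_iUnion.1 hy
    exact (hst (max n m)).chain (hmono (le_max_left n m) hn) (hmono (le_max_right n m) hm) hxy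
  · apply le_antisymm
    · rw [BooleanSubalgebra.closure_le]
      exact iUnion_subset fun n => (hst n).sub
    · refine hgen.trans ?_
      rw [BooleanSubalgebra.closure_le]
      refine iUnion_subset fun n => ?_
      intro c hc
      have hsub : (S (n + 1)).1 ⊆ BooleanSubalgebra.closure (⋃ n, (S n).1) :=
        (subset_iUnion (fun n => (S n).1) (n + 1)).trans BooleanSubalgebra.subset_closure
      obtain ⟨F, hFB, -, hF⟩ := (hst (n + 1)).gen c ((hC n).sub hc)
      refine (BooleanSubalgebra.closure_le).2 ?_ hF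
      rintro x (hx | ⟨p, hp, rfl⟩)
      · exact hsub hx
      · have hpB := hFB hp
        have ht : Triv (C n) (p.2 \ p.1) := by
          rw [hSs] at hpB
          exact htriv n _ _ (hst n) p hpB
        rcases ht c hc with h | h
        · rw [inter_eq_right.2 h]
          exact BooleanSubalgebra.sdiff_mem (hsub ((hst (n + 1)).snd p hpB))
            (hsub ((hst (n + 1)).fst p hpB))
        · have e : c ∩ (p.2 \ p.1) = ⊥ := h.symm.inter_eq
          rw [e]
          exact BooleanSubalgebra.bot_mem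

end Pool.Agent.Hia
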